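import Pool.Agent.S10569

/-!
# Plane curves of degree `d` through exactly `N_d - 1` points of a finite set (MP_ed12bb_co, Q1)

A finite set of points of the real projective plane which lies on no curve of degree `d` meets some
curve of degree `d` in exactly `N_d - 1` points, `N_d = (d + 1) (d + 2) / 2`.

This is deduced from the theorem on the conjecture of Wiseman and Wilson which is proved in
`Pool/Agent/S10569.lean` (the starting library), where the curve is in addition the only one of
degree `d` through these points.
-/

set_option autoImplicit false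

namespace Pool.Agent.Results.MP_ed12bb_co.CurveThroughExactly

open MvPolynomial

/-- The real projective plane: the lines through the origin of `ℝ ^ 3`. -/
abbrev Plane : Type := Projectivization ℝ (Fin 3 → ℝ)

/-- `F` defines a curve of degree `d`: it is a nonzero homogeneous polynomial of degree `d` in three
variables with real coefficients. -/
def IsCurve (d : ℕ) (F : MvPolynomial (Fin 3) ℝ) : Prop := F ≠ 0 ∧ F.IsHomogeneous d

/-- The curve `F = 0` passes through the point `p`: `F` vanishes at all homogeneous coordinate
vectors of `p`. -/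
def Through (F : MvPolynomial (Fin 3) ℝ) (p : Plane) : Prop :=
  ∀ (v : Fin 3 → ℝ) (hv : v ≠ 0), Projectivization.mk ℝ v hv = p → eval v F = 0

theorem through_iff {d : ℕ} {F : MvPolynomial (Fin 3) ℝ} (hF : F.IsHomogeneous d) (p : Plane) :
    Through F p ↔ eval p.rep F = 0 := by
  constructor
  · intro h
    exact h p.rep p.rep_nonzero p.mk_rep
  · intro h v hv hvp
    have h1 : Projectivization.mk ℝ v hv = Projectivization.mk ℝ p.rep p.rep_nonzero := by
      rw [hvp, p.mk_rep]
    rw [Projectivization.mk_eq_mk_iff'] at h1
    obtain ⟨a, ha⟩ := h1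
    rw [← ha]
    have h2 : eval (a • p.rep) F = a ^ d * eval p.rep F := by
      rw [eval_eq, eval_eq, Finset.mul_sum]
      refine Finset.sum_congr rfl fun e he => ?_
      have hdeg : ∑ i ∈ e.support, e i = d := by
        have := hF (mem_support_iff.1 he)
        rwa [Finsupp.weight_apply, Finsupp.sum, Finset.sum_congr rfl
          (fun i _ => by simp : ∀ i ∈ e.support, e i • (1 : Fin 3 → ℕ) i = e i)] at this
      have : ∏ i ∈ e.support, (a • p.rep) i ^ e i = a ^ d * ∏ i ∈ e.support, p.rep i ^ e i := by
        rw [← hdeg, ← Finset.prod_pow_eq_pow_sum, ← Finset.prod_mul_distrib]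
        refine Finset.prod_congr rfl fun i _ => ?_
        rw [Pi.smul_apply, smul_eq_mul, mul_pow]
      rw [this]
      ring
    rw [h2, h, mul_zero]

open Classical in
/-- For every `d ≥ 1` and every finite set of points of the real projective plane which is not
contained in a curve of degree `d`, some curve of degree `d` passes through exactly
`(d + 1) (d + 2) / 2 - 1` points of the set. -/
theorem result (d : ℕ) (hd : 1 ≤ d) (P : Finset Plane)
    (hP : ¬ ∃ F : MvPolynomial (Fin 3) ℝ, IsCurve d F ∧ ∀ p ∈ P, Through F p) :
    ∃ F : MvPolynomial (Fin 3) ℝ, IsCurve d F ∧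
      (P.filter (fun p => Through F p)).card = (d + 1) * (d + 2) / 2 - 1 := by
  rcases Pool.Agent.S10569.result d hd P with ⟨F, hFh, hF0, hF⟩ | ⟨F, hFh, hF0, hcard, -⟩
  · exact absurd ⟨F, ⟨hF0, hFh⟩, fun p hp => (through_iff hFh p).2 (hF p hp)⟩ hP
  · refine ⟨F, ⟨hF0, hFh⟩, ?_⟩
    rw [← hcard]
    congr 1
    apply Finset.filter_congr
    intro p _
    exact through_iff hFh p

end Pool.Agent.Results.MP_ed12bb_co.CurveThroughExactly
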